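import Pool.Agent.W890.SF.Stm

/-!
# Project SAM: the dichotomy and the Erdős matching conjecture for `n ≥ (k + 39/40) s`
-/

set_option autoImplicit false

namespace Pool.Agent.W395.SAM

open Finset Pool.Agent.W890.SF

theorem dic (h1 : S_DI1) (h2 : S_DI2) (h3 : S_DI3) : S_DIC := by
  intro k hk x0 γ hx0 hγ
  obtain ⟨γ', hγ', n3, H3⟩ := h3 k hk x0 γ hx0 hγ
  obtain ⟨c, τ, ε, hc, hτ, _, hε, n2, H2⟩ := h2 k hk x0 γ' hx0 hγ'
  have hε' : 0 < min ε (1 / 2) := lt_min hε (by norm_num)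
  obtain ⟨n1, H1⟩ := h1 k hk x0 c τ (min ε (1 / 2)) hx0 hc hτ hε'
  refine ⟨max n1 (max n2 n3), ?_⟩
  intro n hn F hF s hs hsn hC hM
  have m1 : n1 ≤ n := (le_max_left _ _).trans hn
  have m2 : n2 ≤ n := ((le_max_left _ _).trans (le_max_right _ _)).trans hn
  have m3 : n3 ≤ n := ((le_max_right _ _).trans (le_max_right _ _)).trans hn
  have hs0 : (0 : ℝ) ≤ s := Nat.cast_nonneg s
  have hsn' : ((40 * k + 39) * s : ℝ) ≤ 40 * n := by exact_mod_cast hsn
  have hk' : (2 : ℝ) ≤ k := by exact_mod_cast hk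
  have e1 : (1 + min ε (1 / 2)) * (s : ℝ) ≤ n := by
    have e2 : min ε (1 / 2) * (s : ℝ) ≤ 1 / 2 * s :=
      mul_le_mul_of_nonneg_right (min_le_right _ _) hs0
    have e3 : (k : ℝ) * s ≥ 2 * s := mul_le_mul_of_nonneg_right hk' hs0
    nlinarith
  obtain ⟨y, hy0, hy1, hy2⟩ := H1 n m1 F hF s hs e1 hM
  have hy1' : ∑ v, y v ≤ (1 + ε) * s := by
    refine hy1.trans (mul_le_mul_of_nonneg_right ?_ hs0)
    have := min_le_left ε (1 / 2 : ℝ)
    linarith
  obtain ⟨S, hS1, hS2⟩ := H2 n m2 F hF s hs hsn hC y hy0 hy1' hy2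
  exact H3 n m3 F hF s hs hsn hC S hS1 hS2

theorem emc (h1 : S_BDE) (h2 : S_EXT) (h3 : S_DIC) : S_EMC := by
  intro k hk
  have hk0 : (0 : ℝ) < k := by exact_mod_cast (by omega : 0 < k)
  have hk2 : (2 : ℝ) ≤ k := by exact_mod_cast hk
  have hk3 : (0 : ℝ) < (k : ℝ) ^ 3 := by positivity
  obtain ⟨ξ, hξ⟩ : ∃ ξ : ℝ, ξ = 39 / (2 * (40 * (k : ℝ) + 39)) := ⟨_, rfl⟩
  have hξ0 : 0 < ξ := by rw [hξ]; positivity
  obtain ⟨δ, hδ, n2, H2⟩ := h2 k hk ξ hξ0
  obtain ⟨γ, hγ⟩ : ∃ γ : ℝ, γ = min δ (1 / (8 * (k : ℝ) ^ 3)) := ⟨_, rfl⟩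
  have hγ0 : 0 < γ := by rw [hγ]; exact lt_min hδ (by positivity)
  have hγ1 : γ ≤ δ := by rw [hγ]; exact min_le_left _ _
  have hγ2 : γ ≤ 1 / (8 * (k : ℝ) ^ 3) := by rw [hγ]; exact min_le_right _ _
  obtain ⟨n3, H3⟩ := h3 k hk (1 / (4 * (k : ℝ) ^ 3)) γ (by positivity) hγ0
  refine ⟨max (8 * k ^ 3) (max (2 * k * (40 * k + 39)) (max n2 n3)), ?_⟩
  intro n hn s hsn F hF hC
  have m1 : 8 * k ^ 3 ≤ n := (le_max_left _ _).trans hn
  have m2 : 2 * k * (40 * k + 39) ≤ n :=
    ((le_max_left _ _).trans (le_max_right _ _)).trans hn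
  have m3 : n2 ≤ n :=
    (((le_max_left _ _).trans (le_max_right _ _)).trans (le_max_right _ _)).trans hn
  have m4 : n3 ≤ n :=
    (((le_max_right _ _).trans (le_max_right _ _)).trans (le_max_right _ _)).trans hn
  have m1' : 8 * (k : ℝ) ^ 3 ≤ n := by exact_mod_cast m1
  have m2' : 2 * (k : ℝ) * (40 * k + 39) ≤ n := by exact_mod_cast m2
  have hs0 : (0 : ℝ) ≤ s := Nat.cast_nonneg s
  have hsn' : ((40 * k + 39) * s : ℝ) ≤ 40 * n := by exact_mod_cast hsn
  by_contra hM
  by_cases hs : (s : ℝ) < 1 / (4 * (k : ℝ) ^ 3) * n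
  · -- small s
    apply hM
    refine h1 k (by omega) (Fin n) univ F s (fun e he => ⟨subset_univ _, hF e he⟩) ?_ ?_
    · rw [card_univ, Fintype.card_fin]
      have e1 : 2 * (k : ℝ) ^ 3 * (s + 1) ≤ n := by
        have e2 : (s : ℝ) * (4 * (k : ℝ) ^ 3) < n := by
          calc (s : ℝ) * (4 * (k : ℝ) ^ 3) < 1 / (4 * (k : ℝ) ^ 3) * n * (4 * (k : ℝ) ^ 3) := by
                gcongr
            _ = (n : ℝ) := by field_simp
        nlinarith
      exact_mod_cast e1
    · rw [card_univ, Fintype.card_fin]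
      exact hC
  push Not at hs
  have hks : (k : ℝ) * (s + 1) ≤ (1 - ξ) * n := by
    have hp : (0 : ℝ) < 40 * k + 39 := by positivity
    have e1 : ξ * (2 * (40 * (k : ℝ) + 39)) = 39 := by rw [hξ]; field_simp
    have e2 : (k : ℝ) * (s + 1) * (2 * (40 * k + 39)) ≤ (1 - ξ) * n * (2 * (40 * k + 39)) := by
      have e3 : (1 - ξ) * n * (2 * (40 * (k : ℝ) + 39)) = n * (2 * (40 * k + 39)) - 39 * n := by
        linear_combination (-(n : ℝ)) * e1
      rw [e3]
      have e4 : (k : ℝ) * ((40 * k + 39) * s) ≤ k * (40 * n) :=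
        mul_le_mul_of_nonneg_left hsn' hk0.le
      nlinarith
    exact le_of_mul_le_mul_right e2 (by positivity)
  have hA := H3 n m4 F hF s hs hsn hC.le hM
  obtain ⟨A, hAdef⟩ : ∃ A : Finset (Fin n), A = univ.filter (fun v : Fin n =>
      (1 - γ) * (((n - 1).choose (k - 1) : ℕ) : ℝ) ≤ (dg F v : ℝ)) := ⟨_, rfl⟩
  rw [← hAdef] at hA
  have hdeg : ∀ v ∈ A, (1 - δ) * (((n - 1).choose (k - 1) : ℕ) : ℝ) ≤ (dg F v : ℝ) := by
    intro v hv
    rw [hAdef, mem_filter] at hv
    refine le_trans (mul_le_mul_of_nonneg_right ?_ (Nat.cast_nonneg _)) hv.2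
    linarith
  by_cases hAs : s + 1 ≤ A.card
  · obtain ⟨A', hA', hAc⟩ := exists_subset_card_eq hAs
    have h4 := H2 (Fin n) (by rw [Fintype.card_fin]; exact m3) F hF A'
      (by rw [Fintype.card_fin]; exact fun v hv => hdeg v (hA' hv)) ∅ (empty_subset _)
      (fun e he => absurd he (notMem_empty _)) (fun e he => absurd he (notMem_empty _))
      (by
        rw [Fintype.card_fin, hAc, card_empty]
        push_cast
        rw [add_zero]
        exact hks)
    rw [hAc, card_empty, add_zero] at h4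
    exact hM h4
  push Not at hAs
  obtain ⟨b, hb⟩ : ∃ b : ℕ, A.card + b = s := ⟨s - A.card, by omega⟩
  have hbr : (A.card : ℝ) + b = s := by exact_mod_cast hb
  have hbn : (b : ℝ) ≤ 1 / (8 * (k : ℝ) ^ 3) * n := by
    have : γ * n ≤ 1 / (8 * (k : ℝ) ^ 3) * n := mul_le_mul_of_nonneg_right hγ2 (Nat.cast_nonneg n)
    linarith
  have hs2 : 2 * s ≤ n := by
    have e1 : 79 * s ≤ (40 * k + 39) * s := Nat.mul_le_mul_right s (by omega)
    have e2 : 80 * s ≤ 40 * k * s := Nat.mul_le_mul_right s (by omega)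
    nlinarith
  have hUc : (univ \ A).card = n - A.card := by
    rw [card_sdiff_of_subset (subset_univ _), card_univ, Fintype.card_fin]
  have hbig : 2 * k ^ 3 * (b + 1) ≤ (univ \ A).card := by
    have e0 : A.card ≤ s := by omega
    have e1 : 2 * (k : ℝ) ^ 3 * (b + 1) ≤ n / 2 := by
      have e2 : (b : ℝ) * (8 * (k : ℝ) ^ 3) ≤ n := by
        calc (b : ℝ) * (8 * (k : ℝ) ^ 3) ≤ 1 / (8 * (k : ℝ) ^ 3) * n * (8 * (k : ℝ) ^ 3) := by
              gcongr
          _ = (n : ℝ) := by field_simp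
      nlinarith
    have e3 : 2 * (2 * k ^ 3 * (b + 1)) ≤ n := by
      have : 2 * (2 * (k : ℝ) ^ 3 * (b + 1)) ≤ n := by linarith
      exact_mod_cast this
    rw [hUc]
    omega
  by_cases hF' : (univ \ A).card.choose k - ((univ \ A).card - b).choose k <
      (F.filter (fun e => Disjoint e A)).card
  · obtain ⟨M0, hM0, hM1, hM2⟩ := h1 k (by omega) (Fin n) (univ \ A)
      (F.filter (fun e => Disjoint e A)) b (fun e he => by
        rw [mem_filter] at he
        refine ⟨?_, hF e he.1⟩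
        intro v hv
        rw [mem_sdiff]
        exact ⟨mem_univ _, fun hvA => (disjoint_left.1 he.2 hv hvA)⟩) hbig hF'
    have h4 := H2 (Fin n) (by rw [Fintype.card_fin]; exact m3) F hF A
      (by rw [Fintype.card_fin]; exact hdeg) M0 (hM0.trans (filter_subset _ _)) hM1
      (fun e he => (mem_filter.1 (hM0 he)).2)
      (by
        rw [Fintype.card_fin, hM2]
        push_cast
        rw [← add_assoc, hbr]
        exact hks)
    rw [hM2, ← add_assoc, hb] at h4
    exact hM h4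
  push Not at hF'
  have hsub : (univ \ A).card - b = n - s := by rw [hUc]; omega
  rw [hsub] at hF'
  -- counting the edges which meet A
  have hcount : (F.filter (fun e => ¬ Disjoint e A)).card + (univ \ A).card.choose k ≤
      n.choose k := by
    rw [← card_powersetCard k (univ \ A)]
    have hn' : n.choose k = (powersetCard k (univ : Finset (Fin n))).card := by
      rw [card_powersetCard, card_univ, Fintype.card_fin]
    rw [hn', ← card_union_of_disjoint]
    · apply card_le_card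
      intro e he
      rw [mem_union, mem_filter, mem_powersetCard] at he
      rw [mem_powersetCard]
      rcases he with he | he
      · exact ⟨subset_univ _, hF e he.1⟩
      · exact ⟨subset_univ _, he.2⟩
    · rw [disjoint_left]
      intro e he he'
      rw [mem_filter] at he
      rw [mem_powersetCard] at he'
      apply he.2
      rw [disjoint_left]
      intro v hv hvA
      exact (mem_sdiff.1 (he'.1 hv)).2 hvA
  have hsplit := card_filter_add_card_filter_not (s := F) (fun e => Disjoint e A)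
  have hle : (n - s).choose k ≤ (univ \ A).card.choose k := by
    apply Nat.choose_le_choose
    rw [hUc]
    omega
  omega

end Pool.Agent.W395.SAM
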